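import Mathlib
import Pool.Agent.Q160.UpcEven

set_option autoImplicit false

namespace Pool.Agent.Results.MP_f32aed_co.AllDiamondicities

/-- The window of length `n` at position `i` of the cyclic partial word `u` covers the word `w`.
The symbol `none` is the wild-card. -/
def Covers {A : Type} {n N : ℕ} (u : ZMod N → Option A) (i : ZMod N) (w : Fin n → A) : Prop :=
  ∀ j : Fin n, u (i + (j.val : ℕ)) = none ∨ u (i + (j.val : ℕ)) = some (w j)

/-- The cyclic partial word `u` of length `N ≥ 1` is a universal partial cycle for the words of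
length `n` over the alphabet `A`. -/
def IsUpcycle {A : Type} (n : ℕ) {N : ℕ} (u : ZMod N → Option A) : Prop :=
  0 < N ∧ ∀ w : Fin n → A, ∃! i : ZMod N, Covers u i w

/-- `u` contains at least one wild-card and at least one letter. -/
def Nontriv {A : Type} {N : ℕ} (u : ZMod N → Option A) : Prop :=
  (∃ i, u i = none) ∧ ∃ i, u i ≠ none

/-- Every window of length `n` of `u` contains exactly `d` wild-cards. -/
def HasDiamondicity {A : Type} (n d : ℕ) {N : ℕ} (u : ZMod N → Option A) : Prop :=
  ∀ i : ZMod N, Nat.card {j : Fin n // u (i + (j.val : ℕ)) = none} = d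

open Pool.Agent.Q160.Upc

/-- For every `d ≥ 3` there is a nontrivial universal partial cycle of diamondicity `d` for the
words of length `4 d` over a two-letter alphabet. -/
theorem result (d : ℕ) (hd : 3 ≤ d) :
    ∃ (N : ℕ) (u : ZMod N → Option (Fin 2)),
      IsUpcycle (4 * d) u ∧ Nontriv u ∧ HasDiamondicity (4 * d) d u := by
  obtain ⟨P, hP⟩ := exists_lab hd
  obtain ⟨J, hJ⟩ : ∃ J, J + 1 = 4 * d := ⟨4 * d - 1, by omega⟩
  obtain ⟨N, hN, s, h1, h2⟩ := exists_upcycle hP hJ
  have e : Bool ≃ Fin 2 := finTwoEquiv.symm
  have hnone : ∀ i, (s i).map e = none ↔ s i = none := by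
    intro i
    cases s i <;> simp
  have hsome : ∀ i (c : Fin 2), (s i).map e = some c ↔ s i = some (e.symm c) := by
    intro i c
    cases h : s i with
    | none => simp
    | some b =>
      simp only [Option.map_some, Option.some.injEq]
      exact ⟨fun h => by rw [← h, Equiv.symm_apply_apply], fun h => by
        rw [h, Equiv.apply_symm_apply]⟩
  have hd2 : HasDiamondicity (4 * d) d (fun i => (s i).map e) := by
    rw [← hJ]
    intro i
    simp only [hnone]
    exact h2 i
  refine ⟨N, fun i => (s i).map e, ⟨hN, ?_⟩, ?_, hd2⟩
  · rw [← hJ]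
    intro w
    obtain ⟨i, hi, hu⟩ := h1 (fun j => e.symm (w j))
    refine ⟨i, ?_, ?_⟩
    · intro j
      rcases hi j with h | h
      · left; exact (hnone _).mpr h
      · right; exact (hsome _ _).mpr h
    · intro i' hi'
      apply hu
      intro j
      rcases hi' j with h | h
      · left; exact (hnone _).mp h
      · right; exact (hsome _ _).mp h
  · have h0 := hd2 0
    constructor
    · by_contra hcon
      push Not at hcon
      have : IsEmpty {j : Fin (4 * d) // (fun i => (s i).map e) (0 + (j.val : ℕ)) = none} :=
        ⟨fun j => hcon _ j.2⟩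
      rw [Nat.card_of_isEmpty] at h0
      omega
    · by_contra hcon
      push Not at hcon
      have h3 : Nat.card {j : Fin (4 * d) // (fun i => (s i).map e) (0 + (j.val : ℕ)) = none} =
          Nat.card (Fin (4 * d)) := by
        apply Nat.card_congr
        exact Equiv.subtypeUnivEquiv (fun j => hcon _)
      rw [h3, Nat.card_eq_fintype_card, Fintype.card_fin] at h0
      omega

end Pool.Agent.Results.MP_f32aed_co.AllDiamondicities
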